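import Pool.Agent.W734.STS.Stms

/-!
# General facts on relative energies (STS-HREL)
-/

set_option autoImplicit false

noncomputable section

namespace Pool.Agent.W359.STS.HR

open Pool.Agent.W734.STS Filter

/-- the norm of the interaction -/
def nrm (Φ : Inter) (Λ : Finset ℤ) : ℝ := ⨆ X : Cf, |Φ.Φ Λ X|

lemma bdd (Φ : Inter) (Λ : Finset ℤ) : BddAbove (Set.range fun X : Cf => |Φ.Φ Λ X|) := by
  obtain ⟨B, hB, _⟩ := Φ.sum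
  refine ⟨B Λ, ?_⟩
  rintro _ ⟨X, rfl⟩
  exact hB Λ X

lemma le_nrm (Φ : Inter) (Λ : Finset ℤ) (X : Cf) : |Φ.Φ Λ X| ≤ nrm Φ Λ :=
  le_ciSup (bdd Φ Λ) X

lemma nrm_nonneg (Φ : Inter) (Λ : Finset ℤ) : 0 ≤ nrm Φ Λ :=
  (abs_nonneg _).trans (le_nrm Φ Λ (fun _ => 0))

lemma shift_surj (a : ℤ) (X : Cf) : ∃ Y : Cf, shift a Y = X := by
  refine ⟨fun i => X (i + a), ?_⟩
  funext i
  unfold shift
  simp

lemma nrm_image (Φ : Inter) (Λ : Finset ℤ) (a : ℤ) :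
    nrm Φ (Λ.image (fun i => i + a)) = nrm Φ Λ := by
  apply le_antisymm
  · unfold nrm
    refine ciSup_le fun X => ?_
    obtain ⟨Y, rfl⟩ := shift_surj a X
    rw [Φ.inv]
    exact le_ciSup (bdd Φ Λ) Y
  · unfold nrm
    refine ciSup_le fun X => ?_
    rw [← Φ.inv Λ a X]
    exact le_ciSup (bdd Φ (Λ.image (fun i => i + a))) (shift a X)

/-- translation of finite sets -/
def tr (a : ℤ) : Finset ℤ ≃ Finset ℤ := (Equiv.addRight a).finsetCongr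

lemma tr_apply (a : ℤ) (Λ : Finset ℤ) : tr a Λ = Λ.image (fun i => i + a) := by
  unfold tr
  rw [Equiv.finsetCongr_apply, Finset.map_eq_image]
  rfl

open Classical in
/-- norms of the sets containing `i` -/
def gi (Φ : Inter) (i : ℤ) (Λ : Finset ℤ) : ℝ := if i ∈ Λ then nrm Φ Λ else 0

lemma gi_nonneg (Φ : Inter) (i : ℤ) (Λ : Finset ℤ) : 0 ≤ gi Φ i Λ := by
  unfold gi
  split_ifs
  · exact nrm_nonneg Φ Λ
  · exact le_rfl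

lemma sum_g0 (Φ : Inter) : Summable (gi Φ 0) := by
  obtain ⟨B, hB, hs⟩ := Φ.sum
  have hnB : ∀ Λ, nrm Φ Λ ≤ B Λ := fun Λ => ciSup_le fun X => hB Λ X
  have hs2 : Summable (({Λ : Finset ℤ | (0 : ℤ) ∈ Λ}).indicator B) :=
    summable_subtype_iff_indicator.1 hs
  refine Summable.of_nonneg_of_le (gi_nonneg Φ 0) (fun Λ => ?_) hs2
  unfold gi
  by_cases h : (0 : ℤ) ∈ Λ
  · rw [if_pos h, Set.indicator_of_mem (by exact h)]
    exact hnB Λ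
  · rw [if_neg h, Set.indicator_of_notMem (by exact h)]

lemma sum_gi (Φ : Inter) (i : ℤ) : Summable (gi Φ i) := by
  have e : gi Φ i ∘ tr i = gi Φ 0 := by
    funext Λ
    simp only [Function.comp_apply]
    rw [tr_apply]
    unfold gi
    rw [nrm_image]
    have : i ∈ Λ.image (fun j => j + i) ↔ (0 : ℤ) ∈ Λ := by
      rw [Finset.mem_image]
      constructor
      · rintro ⟨j, hj, h⟩
        have : j = 0 := by omega
        rwa [this] at hj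
      · intro h
        exact ⟨0, h, by simp⟩
    simp only [this]
  rw [← (tr i).summable_iff, e]
  exact sum_g0 Φ

/-- norms of the sets meeting `F` -/
def GF (Φ : Inter) (F : Finset ℤ) (Λ : Finset ℤ) : ℝ := ∑ i ∈ F, gi Φ i Λ

lemma GF_nonneg (Φ : Inter) (F Λ : Finset ℤ) : 0 ≤ GF Φ F Λ :=
  Finset.sum_nonneg fun i _ => gi_nonneg Φ i Λ

lemma sum_GF (Φ : Inter) (F : Finset ℤ) : Summable (GF Φ F) := by
  unfold GF
  exact summable_sum fun i _ => sum_gi Φ i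

lemma nrm_le_GF (Φ : Inter) (F Λ : Finset ℤ) (i : ℤ) (hi : i ∈ F) (hΛ : i ∈ Λ) :
    nrm Φ Λ ≤ GF Φ F Λ := by
  have h1 : gi Φ i Λ ≤ GF Φ F Λ :=
    Finset.single_le_sum (f := fun i => gi Φ i Λ) (fun i _ => gi_nonneg Φ i Λ) hi
  unfold gi at h1
  rwa [if_pos hΛ] at h1

lemma diff_le (Φ : Inter) (F : Finset ℤ) (X Y : Cf) (h : ∀ i, i ∉ F → Y i = X i) (Λ : Finset ℤ) :
    |Φ.Φ Λ Y - Φ.Φ Λ X| ≤ 2 * GF Φ F Λ := by
  by_cases hm : ∃ i ∈ F, i ∈ Λ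
  · obtain ⟨i, hi, hΛ⟩ := hm
    have h1 := nrm_le_GF Φ F Λ i hi hΛ
    have h2 := le_nrm Φ Λ Y
    have h3 := le_nrm Φ Λ X
    have h4 := abs_sub (Φ.Φ Λ Y) (Φ.Φ Λ X)
    linarith
  · push Not at hm
    have : Φ.Φ Λ Y = Φ.Φ Λ X := Φ.loc Λ Y X fun i hi => h i fun hF => hm i hF hi
    rw [this, sub_self, abs_zero]
    have := GF_nonneg Φ F Λ
    linarith

lemma summ_diff (Φ : Inter) (X Y : Cf) (h : Loc Y X) :
    Summable (fun Λ : Finset ℤ => Φ.Φ Λ Y - Φ.Φ Λ X) := by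
  refine Summable.of_norm_bounded (g := fun Λ => 2 * GF Φ h.toFinset Λ)
    ((sum_GF Φ _).mul_left 2) fun Λ => ?_
  rw [Real.norm_eq_abs]
  apply diff_le
  intro i hi
  rw [Set.Finite.mem_toFinset] at hi
  by_contra hc
  exact hi hc

lemma part4 (Φ : Inter) (R : ℕ) (η : ℝ) (hη : 0 < η) : ∃ S : ℕ, R ≤ S ∧ ∀ X X' Y Y' : Cf,
    (∀ i : ℤ, |i| ≤ S → X i = X' i ∧ Y i = Y' i) →
    (∀ i : ℤ, (R : ℤ) < |i| → Y i = X i ∧ Y' i = X' i) →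
    |Hrel Φ Y X - Hrel Φ Y' X'| ≤ η := by
  classical
  set F : Finset ℤ := Finset.Icc (-(R : ℤ)) R with hF
  have hs := sum_GF Φ F
  -- a finite set of finite sets
  have ht : ∃ T : Finset (Finset ℤ), ∑' Λ, GF Φ F Λ - η / 4 < ∑ Λ ∈ T, GF Φ F Λ := by
    have h1 := hs.hasSum
    have h2 := (h1.eventually (lt_mem_nhds
      (show ∑' Λ, GF Φ F Λ - η / 4 < ∑' Λ, GF Φ F Λ by linarith))).exists
    exact h2
  obtain ⟨T, hT⟩ := ht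
  -- all of them are in `[-S, S]`
  obtain ⟨S, hRS, hS⟩ : ∃ S : ℕ, R ≤ S ∧ ∀ Λ ∈ T, ∀ i ∈ Λ, |i| ≤ (S : ℤ) := by
    refine ⟨R + ∑ Λ ∈ T, ∑ i ∈ Λ, i.natAbs, Nat.le_add_right _ _, ?_⟩
    intro Λ hΛ i hi
    have h1 : i.natAbs ≤ ∑ i ∈ Λ, i.natAbs :=
      Finset.single_le_sum (f := fun i : ℤ => i.natAbs) (fun _ _ => Nat.zero_le _) hi
    have h2 : ∑ i ∈ Λ, i.natAbs ≤ ∑ Λ ∈ T, ∑ i ∈ Λ, i.natAbs :=
      Finset.single_le_sum (f := fun Λ : Finset ℤ => ∑ i ∈ Λ, i.natAbs)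
        (fun _ _ => Nat.zero_le _) hΛ
    rw [Int.abs_eq_natAbs]
    exact_mod_cast (h1.trans h2).trans (Nat.le_add_left _ _)
  refine ⟨S, hRS, ?_⟩
  intro X X' Y Y' h1 h2
  have hoff : ∀ i : ℤ, i ∉ F → (R : ℤ) < |i| := by
    intro i hi
    rw [hF, Finset.mem_Icc] at hi
    by_contra hc
    push Not at hc
    rw [abs_le] at hc
    exact hi hc
  have hXY : ∀ i, i ∉ F → Y i = X i := fun i hi => (h2 i (hoff i hi)).1
  have hXY' : ∀ i, i ∉ F → Y' i = X' i := fun i hi => (h2 i (hoff i hi)).2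
  have hsub : ∀ (Z W : Cf), (∀ i, i ∉ F → Z i = W i) → Loc Z W := by
    intro Z W h
    refine F.finite_toSet.subset ?_
    intro i hi
    by_contra hc
    exact hi (h i hc)
  have s1 := summ_diff Φ X Y (hsub Y X hXY)
  have s2 := summ_diff Φ X' Y' (hsub Y' X' hXY')
  have e : Hrel Φ Y X - Hrel Φ Y' X' =
      ∑' Λ, ((Φ.Φ Λ Y - Φ.Φ Λ X) - (Φ.Φ Λ Y' - Φ.Φ Λ X')) := by
    unfold Hrel
    rw [s1.tsum_sub s2]
  rw [e]
  have hK : Summable (fun Λ => 4 * (GF Φ F Λ - if Λ ∈ T then GF Φ F Λ else 0)) := by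
    refine (hs.sub ?_).mul_left 4
    exact summable_of_ne_finset_zero (s := T) fun Λ hΛ => if_neg hΛ
  have hle : ∀ Λ, ‖(Φ.Φ Λ Y - Φ.Φ Λ X) - (Φ.Φ Λ Y' - Φ.Φ Λ X')‖ ≤
      4 * (GF Φ F Λ - if Λ ∈ T then GF Φ F Λ else 0) := by
    intro Λ
    rw [Real.norm_eq_abs]
    by_cases hΛ : Λ ∈ T
    · rw [if_pos hΛ, sub_self, mul_zero]
      have e1 : Φ.Φ Λ Y = Φ.Φ Λ Y' := Φ.loc Λ Y Y' fun i hi => (h1 i (hS Λ hΛ i hi)).2
      have e2 : Φ.Φ Λ X = Φ.Φ Λ X' := Φ.loc Λ X X' fun i hi => (h1 i (hS Λ hΛ i hi)).1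
      rw [e1, e2, sub_self, abs_zero]
    · rw [if_neg hΛ, sub_zero]
      have a1 := diff_le Φ F X Y hXY Λ
      have a2 := diff_le Φ F X' Y' hXY' Λ
      have a3 := abs_sub (Φ.Φ Λ Y - Φ.Φ Λ X) (Φ.Φ Λ Y' - Φ.Φ Λ X')
      linarith
  have hn : Summable (fun Λ => ‖(Φ.Φ Λ Y - Φ.Φ Λ X) - (Φ.Φ Λ Y' - Φ.Φ Λ X')‖) :=
    Summable.of_nonneg_of_le (fun _ => norm_nonneg _) hle hK
  have hfin : ∑' Λ, (4 * (GF Φ F Λ - if Λ ∈ T then GF Φ F Λ else 0)) =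
      4 * (∑' Λ, GF Φ F Λ - ∑ Λ ∈ T, GF Φ F Λ) := by
    rw [tsum_mul_left, hs.tsum_sub (summable_of_ne_finset_zero (s := T) fun Λ hΛ => if_neg hΛ),
      tsum_eq_sum (s := T) fun Λ hΛ => if_neg hΛ]
    congr 2
    exact Finset.sum_congr rfl fun Λ hΛ => if_pos hΛ
  calc |∑' Λ, ((Φ.Φ Λ Y - Φ.Φ Λ X) - (Φ.Φ Λ Y' - Φ.Φ Λ X'))|
      = ‖∑' Λ, ((Φ.Φ Λ Y - Φ.Φ Λ X) - (Φ.Φ Λ Y' - Φ.Φ Λ X'))‖ := (Real.norm_eq_abs _).symm
    _ ≤ ∑' Λ, ‖(Φ.Φ Λ Y - Φ.Φ Λ X) - (Φ.Φ Λ Y' - Φ.Φ Λ X')‖ := norm_tsum_le_tsum_norm hn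
    _ ≤ ∑' Λ, (4 * (GF Φ F Λ - if Λ ∈ T then GF Φ F Λ else 0)) := hn.tsum_le_tsum hle hK
    _ = 4 * (∑' Λ, GF Φ F Λ - ∑ Λ ∈ T, GF Φ F Λ) := hfin
    _ ≤ η := by linarith

/-- the sum of two interactions -/
def addInter (Φ Φ' : Inter) (ε : ℝ) : Inter where
  Φ Λ X := Φ.Φ Λ X + ε * Φ'.Φ Λ X
  loc Λ X Y h := by rw [Φ.loc Λ X Y h, Φ'.loc Λ X Y h]
  inv Λ a X := by rw [Φ.inv, Φ'.inv]
  sum := by
    obtain ⟨B, hB, hs⟩ := Φ.sum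
    obtain ⟨B', hB', hs'⟩ := Φ'.sum
    refine ⟨fun Λ => B Λ + |ε| * B' Λ, fun Λ X => ?_, hs.add (hs'.mul_left |ε|)⟩
    refine (abs_add_le _ _).trans ?_
    rw [abs_mul]
    exact add_le_add (hB Λ X) (mul_le_mul_of_nonneg_left (hB' Λ X) (abs_nonneg ε))

theorem hrelp : S_HREL := by
  refine ⟨?_, ?_, ?_, ?_, ?_⟩
  · intro Φ X Y Z h1 h2
    unfold Hrel
    rw [← (summ_diff Φ Y Z h2).tsum_add (summ_diff Φ X Y h1)]
    refine tsum_congr fun Λ => ?_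
    ring
  · intro Φ X Y a
    unfold Hrel
    rw [← (tr a).tsum_eq]
    refine tsum_congr fun Λ => ?_
    rw [tr_apply, Φ.inv, Φ.inv]
  · intro Φ Φ' Ψ ε hadd X Y hL
    unfold Hrel
    rw [← tsum_mul_left, ← (summ_diff Φ X Y hL).tsum_add ((summ_diff Φ' X Y hL).mul_left ε)]
    refine tsum_congr fun Λ => ?_
    rw [hadd, hadd]
    ring
  · exact part4
  · intro Φ Φ' ε
    exact ⟨addInter Φ Φ' ε, fun Λ X => rfl⟩

end Pool.Agent.W359.STS.HR
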